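import Mathlib
import Pool.Agent.L5helper45.NS.Pair

set_option autoImplicit false

namespace Pool.Agent.Results.MP_d0f9e0_co.CentralSymmetry

/-- `x` is a maximal equiangular tight frame in `ℂ^d`. -/
def IsMaximalETF (d : ℕ) (x : Fin (d ^ 2) → EuclideanSpace ℂ (Fin d)) : Prop :=
  (∀ i, ‖x i‖ = 1) ∧ ∀ i j, i ≠ j → ‖inner ℂ (x i) (x j)‖ = 1 / Real.sqrt ((d : ℝ) + 1)

/-- The unitary transformation `U` maps the line of `x i` to the line of `x (π i)` for all `i`. -/
def Induces {d : ℕ} (x : Fin (d ^ 2) → EuclideanSpace ℂ (Fin d))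
    (U : EuclideanSpace ℂ (Fin d) ≃ₗᵢ[ℂ] EuclideanSpace ℂ (Fin d))
    (π : Equiv.Perm (Fin (d ^ 2))) : Prop :=
  ∀ i, ∃ c : ℂ, U (x i) = c • x (π i)

/-- The lines of `x` form one orbit of the Weyl-Heisenberg group of `ℤ/d`: for a suitable
orthonormal basis `e` indexed by `ℤ/d` and a primitive `d`-th root of unity `ζ`, any frame vector
arises from any other by a cyclic shift of the coordinates, multiplication of the `k`-th coordinate
by `ζ^(c k)`, and a global phase. -/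
def IsWeylHeisenbergOrbit {d : ℕ} [NeZero d] (x : Fin (d ^ 2) → EuclideanSpace ℂ (Fin d)) : Prop :=
  ∃ (ζ : ℂ) (e : OrthonormalBasis (ZMod d) ℂ (EuclideanSpace ℂ (Fin d))), IsPrimitiveRoot ζ d ∧
    ∀ i j, ∃ (a c : ZMod d) (μ : ℂ), ‖μ‖ = 1 ∧
      ∀ k, inner ℂ (e k) (x j) = μ * ζ ^ (c * k).val * inner ℂ (e (k - a)) (x i)

/-- The group `P` of permutations of the lines is generated by two commuting elements of order
`p` which are induced by unitaries `U`, `W` with `UW = ζWU`, `ζ` a primitive `p`-th root of unity.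
-/
def IsHeisenberg {d : ℕ} (x : Fin (d ^ 2) → EuclideanSpace ℂ (Fin d)) (p : ℕ)
    (P : Subgroup (Equiv.Perm (Fin (d ^ 2)))) : Prop :=
  ∃ π ∈ P, ∃ σ ∈ P, ∃ (U W : EuclideanSpace ℂ (Fin d) ≃ₗᵢ[ℂ] EuclideanSpace ℂ (Fin d)) (ζ : ℂ),
    Induces x U π ∧ Induces x W σ ∧ IsPrimitiveRoot ζ p ∧ (∀ v, U (W v) = ζ • W (U v)) ∧
    π ^ p = 1 ∧ σ ^ p = 1 ∧ ∀ ρ ∈ P, ∃ a b : ℕ, ρ = π ^ a * σ ^ b

/-- **Transitive symmetry groups and the Weyl-Heisenberg group.** Let `x` be a maximal ETF in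
`ℂ^d`, and let `G` be a group of unitary symmetries, regarded as a group of permutations of the
`d²` lines, which is transitive on the lines.
* If the centre of `G` contains an element of order `d`, then the lines of `x` form an orbit of the
  Weyl-Heisenberg group of `ℤ/d`.
* If `G` is nilpotent, then its centre contains an element of order the product of the primes
  dividing `d`; so if moreover `d` is squarefree, then the lines of `x` form an orbit of the
  Weyl-Heisenberg group of `ℤ/d`.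
* Without any assumption on `G`: if the prime `p` divides `d` exactly once and
  `d < p (p - 1 - √p)`, then the `p`-part of `|G|` is `p²`, and every subgroup of `G` of order `p²`
  acts freely on the lines and is generated by a Heisenberg pair. -/
theorem result (d : ℕ) [NeZero d] (x : Fin (d ^ 2) → EuclideanSpace ℂ (Fin d))
    (hx : IsMaximalETF d x) (G : Subgroup (Equiv.Perm (Fin (d ^ 2))))
    (hG : ∀ π ∈ G, ∃ U, Induces x U π) (htr : ∀ i j, ∃ π ∈ G, π i = j) :
    (∀ α ∈ G, (∀ g ∈ G, α * g = g * α) → orderOf α = d → IsWeylHeisenbergOrbit x) ∧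
    (Group.IsNilpotent G →
      (∃ α ∈ G, (∀ g ∈ G, α * g = g * α) ∧ orderOf α = ∏ ℓ ∈ d.primeFactors, ℓ) ∧
      (Squarefree d → IsWeylHeisenbergOrbit x)) ∧
    (∀ p : ℕ, p.Prime → p ∣ d → ¬ p ^ 2 ∣ d → (d : ℝ) < p * (p - 1 - Real.sqrt p) →
      p ^ 2 ∣ Nat.card G ∧ ¬ p ^ 3 ∣ Nat.card G ∧
      ∀ P : Subgroup (Equiv.Perm (Fin (d ^ 2))), P ≤ G → Nat.card P = p ^ 2 →
        (∀ π ∈ P, π ≠ 1 → ∀ i, π i ≠ i) ∧ IsHeisenberg x p P) := by
  classical
  have hd : 1 ≤ d := Nat.one_le_iff_ne_zero.2 (NeZero.ne d)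
  have hE : Pool.Agent.Y387.SF.IsEtf d x := ⟨hx.1, hx.2⟩
  have hX : Pool.Agent.H109R2.SIC.IsMaxETF d x := hx
  have hcard : Fintype.card (Fin (d ^ 2)) = d ^ 2 := Fintype.card_fin _
  have hV : Module.finrank ℂ (EuclideanSpace ℂ (Fin d)) = d := by simp
  have hne : Nonempty (Fin (d ^ 2)) := ⟨⟨0, by positivity⟩⟩
  have h1 : ∀ α ∈ G, (∀ g ∈ G, α * g = g * α) → orderOf α = d → IsWeylHeisenbergOrbit x := by
    intro α hα hαc hαd
    obtain ⟨A, B, g, ζ, hA, -, hB, hζ, hAB⟩ :=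
      Pool.Agent.L5helper45.NS.exists_heis hE hd hcard hV G hG htr hα hαc
    rw [hαd] at hζ
    obtain ⟨e, he⟩ := Pool.Agent.L5helper45.NS.orbit_all hE hcard hV hA hB hζ hAB
    exact ⟨ζ, e, hζ, he⟩
  have h2 : Group.IsNilpotent G →
      ∃ α ∈ G, (∀ g ∈ G, α * g = g * α) ∧ orderOf α = ∏ ℓ ∈ d.primeFactors, ℓ := by
    intro hnil
    obtain ⟨g, hg, hgo⟩ := Pool.Agent.L5helper45.NS.exists_central_rad hcard G htr hnil
    refine ⟨g, g.2, fun h hh => congrArg Subtype.val (hg ⟨h, hh⟩), ?_⟩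
    rw [← hgo, Subgroup.orderOf_coe]
  refine ⟨h1, fun hnil => ⟨h2 hnil, fun hsq => ?_⟩, ?_⟩
  · obtain ⟨α, hα, hαc, hαo⟩ := h2 hnil
    exact h1 α hα hαc (hαo.trans (Nat.prod_primeFactors_of_squarefree hsq))
  · intro p hp hpd hp2 hlt
    have : Fact p.Prime := ⟨hp⟩
    have hpre : MulAction.IsPretransitive G (Fin (d ^ 2)) := by
      constructor
      intro i j
      obtain ⟨π, hπ, hij⟩ := htr i j
      exact ⟨⟨π, hπ⟩, hij⟩
    have hdvd : d ^ 2 ∣ Nat.card G := by
      have := Pool.Agent.Y387.RU.card_dvd hpre hne.some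
      rwa [hcard] at this
    have hfree : ∀ P : Subgroup (Equiv.Perm (Fin (d ^ 2))), P ≤ G → ∀ k, Nat.card P = p ^ k →
        ∀ π ∈ P, π ≠ 1 → Pool.Agent.W864.Sym.fix π = 0 := fun P hPG k hk =>
      Pool.Agent.L5helper45.NS.free_of hd hX hp hpd hlt P (fun π hπ => hG π (hPG hπ)) hk
    refine ⟨(pow_dvd_pow_of_dvd hpd 2).trans hdvd, ?_, ?_⟩
    · intro h3
      obtain ⟨K, hK⟩ := Sylow.exists_subgroup_card_pow_prime (G := G) p h3
      have hK' : Nat.card (K.map G.subtype) = p ^ 3 := by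
        rw [Subgroup.card_map_of_injective (Subgroup.subtype_injective _), hK]
      have hKG : K.map G.subtype ≤ G := Subgroup.map_subtype_le K
      have h4 := Pool.Agent.L5helper45.NS.card_dvd_of hd hp hp2 _ hK' (hfree _ hKG 3 hK')
      rw [hK', Nat.pow_dvd_pow_iff_le_right hp.one_lt] at h4
      omega
    · intro P hPG hP
      have h4 := hfree P hPG 2 hP
      refine ⟨fun π hπ hπ1 i hi => ?_, ?_⟩
      · have h5 := h4 π hπ hπ1
        unfold Pool.Agent.W864.Sym.fix at h5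
        rw [Finset.card_eq_zero, Finset.filter_eq_empty_iff] at h5
        exact h5 (Finset.mem_univ i) hi
      · exact Pool.Agent.L5helper45.NS.pair_of hd hX hp hp2 P (fun π hπ => hG π (hPG hπ)) hP h4

end Pool.Agent.Results.MP_d0f9e0_co.CentralSymmetry
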