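import Mathlib
import Pool.Agent.L5helper45.WH.Main

set_option autoImplicit false

namespace Pool.Agent.Results.MP_d0f9e0_co.FiniteFieldOrbit

/-- Group covariant approximate maximal equiangular tight frames. Let `F` be a finite field with
`q` elements and characteristic at least `5`, and let `ψ` be a primitive additive character of `F`.
There is an explicit unit vector in `ℂ^q` (a cubic phase plus a point mass) whose orbit
`v (a, b)` under the Weyl-Heisenberg group of `F` (translations by `a`, modulations by `b`)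
satisfies:
* the `q²` unit vectors of the orbit form a tight frame;
* vectors with the same `a` have inner products of modulus exactly `1/√(q+1)`;
* for all distinct pairs, `(q+1)·|⟨v_i, v_j⟩|²` is within `6/(q+1)^{1/4}` of `1`;
* on traceless matrices the second moment of the orbit is that of a maximal ETF up to a relative
  error `6/(q+1)^{1/4}` (for a maximal ETF in dimension `q` the error would be zero). -/
theorem result {F : Type*} [Field F] [Fintype F] [DecidableEq F] (h2 : (2 : F) ≠ 0)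
    (h3 : (3 : F) ≠ 0) (ψ : AddChar F ℂ) (hψ : ψ.IsPrimitive) :
    ∃ (α β : ℝ) (v : F × F → EuclideanSpace ℂ F), 0 < α ∧ 0 < β ∧
      (∀ a b k, v (a, b) k = ψ (b * k) * ((α / Real.sqrt (Fintype.card F) : ℝ) * ψ ((k - a) ^ 3) +
        if k = a then (β : ℂ) else 0)) ∧
      (∀ i, ‖v i‖ = 1) ∧
      (∀ w, ∑ i, ‖inner ℂ (v i) w‖ ^ 2 = (Fintype.card F : ℝ) * ‖w‖ ^ 2) ∧
      (∀ i j, i ≠ j → i.1 = j.1 →
        ‖inner ℂ (v i) (v j)‖ = 1 / Real.sqrt ((Fintype.card F : ℝ) + 1)) ∧
      (∀ i j, i ≠ j → |((Fintype.card F : ℝ) + 1) * ‖inner ℂ (v i) (v j)‖ ^ 2 - 1| ≤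
        6 / ((Fintype.card F : ℝ) + 1) ^ (1 / 4 : ℝ)) ∧
      (∀ B : Matrix F F ℂ, B.trace = 0 →
        |((Fintype.card F : ℝ) + 1) / Fintype.card F *
            ∑ i, ‖∑ k, ∑ l, (starRingEnd ℂ) (v i k) * B k l * v i l‖ ^ 2 -
          ∑ k, ∑ l, ‖B k l‖ ^ 2| ≤
        6 / ((Fintype.card F : ℝ) + 1) ^ (1 / 4 : ℝ) * ∑ k, ∑ l, ‖B k l‖ ^ 2) :=
  Pool.Agent.L5helper45.WH.main h2 h3 hψ

end Pool.Agent.Results.MP_d0f9e0_co.FiniteFieldOrbit
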