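import Mathlib
import Pool.Agent.L5helper45.NM.Frame

set_option autoImplicit false

namespace Pool.Agent.Results.MP_d0f9e0_co.NearMissRigidity

/-- Rigidity of near misses to a maximal equiangular tight frame. Let `x` be a maximal ETF in
`ℂ^d`: `d²` unit vectors with pairwise inner products of modulus `1/√(d+1)`.
* If a unit vector `y` satisfies `|⟨x_i, y⟩| = 1/√(d+1)` for all but at most `d^{3/2}/32` of the
  indices `i`, then `y` spans the same line as one of the `x_i`.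
* If `y` is another maximal ETF in `ℂ^d` and all but at most `d^{3/2}/32` of the lines of `x` are
  lines of `y`, then `x` and `y` have the same `d²` lines. -/
theorem result (d : ℕ) (x : Fin (d ^ 2) → EuclideanSpace ℂ (Fin d))
    (hx1 : ∀ i, ‖x i‖ = 1)
    (hx2 : ∀ i j, i ≠ j → ‖inner ℂ (x i) (x j)‖ = 1 / Real.sqrt ((d : ℝ) + 1)) :
    (∀ (y : EuclideanSpace ℂ (Fin d)) (A : Finset (Fin (d ^ 2))), ‖y‖ = 1 →
      (A.card : ℝ) ≤ (d : ℝ) * Real.sqrt d / 32 →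
      (∀ i, i ∉ A → ‖inner ℂ (x i) y‖ = 1 / Real.sqrt ((d : ℝ) + 1)) →
      ∃ i, ∃ c : ℂ, ‖c‖ = 1 ∧ y = c • x i) ∧
    (∀ (y : Fin (d ^ 2) → EuclideanSpace ℂ (Fin d)) (A : Finset (Fin (d ^ 2))),
      (∀ i, ‖y i‖ = 1) →
      (∀ i j, i ≠ j → ‖inner ℂ (y i) (y j)‖ = 1 / Real.sqrt ((d : ℝ) + 1)) →
      (A.card : ℝ) ≤ (d : ℝ) * Real.sqrt d / 32 →
      (∀ i, i ∉ A → ∃ j, ∃ c : ℂ, x i = c • y j) →
      ∃ σ : Equiv.Perm (Fin (d ^ 2)), ∀ j, ∃ c : ℂ, ‖c‖ = 1 ∧ y j = c • x (σ j)) :=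
  ⟨fun _ A hy hA h => Pool.Agent.L5helper45.NM.near_miss ⟨hx1, hx2⟩ hy A hA h,
    fun _ A hy1 hy2 hA h =>
      Pool.Agent.L5helper45.NM.two_frames ⟨hx1, hx2⟩ ⟨hy1, hy2⟩ A hA h⟩

end Pool.Agent.Results.MP_d0f9e0_co.NearMissRigidity
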