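import Mathlib
import Pool.Agent.L5helper31.SIC.Three

set_option autoImplicit false

/-!
# Regular simplices with `d²` vertices formed by nearly pure density matrices of rank two or three
-/

namespace Pool.Agent.Results.MP_d0f9e0_co.RankTwoSimplices

open scoped ComplexOrder

/-- The `d²` matrices `A i` are density matrices (positive semidefinite, trace one) of rank at most
`r` and purity `tr (A i)² = s`, they sum to `d` times the identity, and they are the vertices of a
regular simplex: `tr (A i A j)` is the same number `(d - s) / (d² - 1)` for all `i ≠ j`.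
For `r = 1` (and so `s = 1`) this says that `A i = x_i x_i^*` for a maximal equiangular tight
frame `x`. -/
structure IsStateSimplex (d r : ℕ) (s : ℝ) (A : Fin (d ^ 2) → Matrix (Fin d) (Fin d) ℂ) :
    Prop where
  posSemidef : ∀ i, (A i).PosSemidef
  trace_one : ∀ i, (A i).trace = 1
  rank_le : ∀ i, (A i).rank ≤ r
  purity : ∀ i, (A i * A i).trace = (s : ℂ)
  overlap : ∀ i j, i ≠ j → (A i * A j).trace = ((((d : ℝ) - s) / ((d : ℝ) ^ 2 - 1) : ℝ) : ℂ)
  sum_eq : ∑ i, A i = (d : ℂ) • (1 : Matrix (Fin d) (Fin d) ℂ)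

theorem sum_of {d : ℕ} (hd : 2 ≤ d) {s : ℝ} {A : Fin (d ^ 2) → Matrix (Fin d) (Fin d) ℂ}
    (h1 : ∀ i, (A i).PosSemidef) (h2 : ∀ i, (A i).trace = 1)
    (h3 : ∀ i, (A i * A i).trace = (s : ℂ))
    (h4 : ∀ i j, i ≠ j → (A i * A j).trace =
      ((((d : ℝ) - s) / ((d : ℝ) ^ 2 - 1) : ℝ) : ℂ)) :
    ∑ i, A i = (d : ℂ) • (1 : Matrix (Fin d) (Fin d) ℂ) := by
  classical
  set S := ∑ i, A i with hS
  have hherm : (S - (d : ℂ) • (1 : Matrix (Fin d) (Fin d) ℂ)).IsHermitian := by
    apply Matrix.IsHermitian.sub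
    · show S.conjTranspose = S
      rw [hS, Matrix.conjTranspose_sum]
      exact Finset.sum_congr rfl fun i _ => (h1 i).isHermitian
    · show ((d : ℂ) • (1 : Matrix (Fin d) (Fin d) ℂ)).conjTranspose = _
      rw [Matrix.conjTranspose_smul, Matrix.conjTranspose_one]
      simp
  have hSS : (S * S).trace = (d : ℂ) ^ 3 := by
    have e1 : (S * S).trace = ∑ i, ∑ j, (A i * A j).trace := by
      rw [hS, Finset.sum_mul_sum, Matrix.trace_sum]
      exact Finset.sum_congr rfl fun i _ => Matrix.trace_sum _ _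
    have e2 : ∀ i, ∑ j, (A i * A j).trace = (d : ℂ) := by
      intro i
      rw [← Finset.add_sum_erase _ _ (Finset.mem_univ i), h3,
        Finset.sum_congr rfl (fun j hj => h4 i j (Finset.ne_of_mem_erase hj).symm),
        Finset.sum_const, Finset.card_erase_of_mem (Finset.mem_univ i), Finset.card_univ,
        Fintype.card_fin, nsmul_eq_mul]
      have hd1 : 1 ≤ d ^ 2 := Nat.one_le_pow _ _ (by omega)
      rw [Nat.cast_sub hd1]
      push_cast
      have hne : ((d : ℂ) ^ 2 - 1) ≠ 0 := by
        have : (d : ℝ) ^ 2 - 1 ≠ 0 := by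
          have : (2 : ℝ) ≤ d := by exact_mod_cast hd
          nlinarith
        exact_mod_cast this
      field_simp
      ring
    rw [e1, Finset.sum_congr rfl (fun i _ => e2 i), Finset.sum_const, Finset.card_univ,
      Fintype.card_fin, nsmul_eq_mul]
    push_cast
    ring
  have hStr : S.trace = (d : ℂ) ^ 2 := by
    rw [hS, Matrix.trace_sum, Finset.sum_congr rfl (fun i _ => h2 i), Finset.sum_const,
      Finset.card_univ, Fintype.card_fin, nsmul_eq_mul, mul_one]
    push_cast
    rfl
  set T := S - (d : ℂ) • (1 : Matrix (Fin d) (Fin d) ℂ) with hT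
  have hTT : (T.conjTranspose * T).trace = 0 := by
    rw [hherm.eq, hT, Matrix.sub_mul, Matrix.mul_sub, Matrix.mul_sub, Matrix.trace_sub,
      Matrix.trace_sub, Matrix.trace_sub, hSS, Matrix.mul_smul, Matrix.smul_mul, Matrix.mul_one,
      Matrix.one_mul, Matrix.trace_smul, hStr, Matrix.mul_smul, Matrix.mul_one,
      Matrix.trace_smul, Matrix.trace_smul, Matrix.trace_one, Fintype.card_fin]
    simp only [smul_eq_mul]
    ring
  have hT0 : T = 0 := Matrix.trace_conjTranspose_mul_self_eq_zero_iff.1 hTT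
  exact sub_eq_zero.1 hT0

/-- **Nearly pure simplices.** Let `d ≥ 2` be such that `d` or `d + 1` is a prime power. Then there
are `d²` density matrices of rank at most three (at most two if `d` is a prime power) and of purity
at least `1 - 4/√d` which sum to `d` times the identity and are the vertices of a regular
simplex. -/
theorem result (d : ℕ) (hd : 2 ≤ d) (h : IsPrimePow d ∨ IsPrimePow (d + 1)) :
    ∃ (r : ℕ) (s : ℝ) (A : Fin (d ^ 2) → Matrix (Fin d) (Fin d) ℂ),
      r ≤ 3 ∧ (IsPrimePow d → r ≤ 2) ∧ 1 - 4 / Real.sqrt d ≤ s ∧ IsStateSimplex d r s A := by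
  classical
  have hd0 : (0 : ℝ) < d := by
    have : 0 < d := by omega
    exact_mod_cast this
  have hsq : 0 < Real.sqrt d := Real.sqrt_pos.2 hd0
  by_cases hdp : IsPrimePow d
  · obtain ⟨p, k, hp, hk, hpk⟩ := hdp
    have : Fact p.Prime := ⟨hp.nat_prime⟩
    have : Fintype (GaloisField p k) := Fintype.ofFinite _
    have hcard : Fintype.card (GaloisField p k) = d := by
      rw [← Nat.card_eq_fintype_card, GaloisField.card p k hk.ne', hpk]
    have key := Pool.Agent.L5helper31.SIC.rank_two (GaloisField p k)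
    rw [hcard] at key
    obtain ⟨A, s, h0, h1, h2⟩ := key
    refine ⟨2, s, A, by norm_num, fun _ => le_rfl, ?_, ?_⟩
    · refine le_trans ?_ h0
      have : 2 / Real.sqrt d ≤ 4 / Real.sqrt d := by
        apply div_le_div_of_nonneg_right (by norm_num) hsq.le
      linarith
    · exact ⟨fun i => (h1 i).1, fun i => (h1 i).2.1, fun i => (h1 i).2.2.1,
        fun i => (h1 i).2.2.2, h2, sum_of hd (fun i => (h1 i).1) (fun i => (h1 i).2.1)
        (fun i => (h1 i).2.2.2) h2⟩
  · have hdp1 : IsPrimePow (d + 1) := h.resolve_left hdp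
    obtain ⟨p, k, hp, hk, hpk⟩ := hdp1
    have : Fact p.Prime := ⟨hp.nat_prime⟩
    have : Fintype (GaloisField p k) := Fintype.ofFinite _
    have hcard : Fintype.card (GaloisField p k) = d + 1 := by
      rw [← Nat.card_eq_fintype_card, GaloisField.card p k hk.ne', hpk]
    obtain ⟨A, s, h0, h1, h2⟩ := Pool.Agent.L5helper31.SIC.rank_three (GaloisField p k)
      (by omega) d hcard.symm
    refine ⟨3, s, A, le_rfl, fun h => absurd h hdp, ?_, ?_⟩
    · refine le_trans ?_ h0
      have : 4 / Real.sqrt (d + 1) ≤ 4 / Real.sqrt d :=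
        div_le_div_of_nonneg_left (by norm_num) hsq (Real.sqrt_le_sqrt (by linarith))
      linarith
    · exact ⟨fun i => (h1 i).1, fun i => (h1 i).2.1, fun i => (h1 i).2.2.1,
        fun i => (h1 i).2.2.2, h2, sum_of hd (fun i => (h1 i).1) (fun i => (h1 i).2.1)
        (fun i => (h1 i).2.2.2) h2⟩

end Pool.Agent.Results.MP_d0f9e0_co.RankTwoSimplices
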